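import Pool.Agent.H57.AVG.C1a

/-!
# The codes of the path of the base over the zero label

`zc`: positions at the start of the window to `nc` digits, velocities to `nc'` digits in the units
of the window. `zc_of`, `of_zc`: these codes and the digits of the position and of the velocity are
few bits of each other, given the time.
-/

set_option autoImplicit false

namespace Pool.V0Y91

open Finset Real MvPolynomial
open Pool.Agent.H49.Ent Pool.Agent.H32.Dense Pool.STK Pool.KA Pool.KSAT Pool.K2S Pool.PB Pool.S6C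
open Pool.GEN Pool.CHT Pool.CHX Pool.ISO Pool.LA91 Pool.AVG71 Pool.AVG5 Pool.D2F2
open Pool.AVG57 hiding cod
open Pool.PB.Trl (rt rt_mem t_rt)

variable {m J : ℕ}

/-- **The codes of the path over the zero label.** -/
noncomputable def zc (F : Fam m J) (c : ℕ → Fin m) (r₀ w K : ℕ) (nc nc' : ℕ → ℕ) (ω : F.Ω)
    (l : Fin r₀) : (Fin (K + 1) → ℤ) × (Fin (K + 1) → ℤ) :=
  (Pool.AVG57.cod F w (fun _ => 0) (c l) (nc l) 0 K ω,
    Pool.AVG57.cod F w (fun _ => 0) (c l) (nc' l) 1 K ω)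

theorem natDegree_dv0 (w : ℕ) {F : Fam m J} (κ : Fin m) (s : LnT F) :
    (dv w (fun (_ : LnT F) (_ : Fin m) => (0 : MvPolynomial (Option (Fin m)) ℝ)) κ s).natDegree ≤
      1 := by
  unfold dv
  rw [map_zero, sub_zero]
  exact natDegree_lc w s (some κ)

theorem ojet_zero0 (F : Fam m J) (κ : Fin m) (ω : F.Ω) : ojet F κ 0 0 ω = F.x ω κ := by
  unfold ojet jet
  rw [sub_zero, aeval_X]
  unfold Pool.LA91.lp
  simp
  rfl

theorem ojet_zero1 (F : Fam m J) (κ : Fin m) (ω : F.Ω) : ojet F κ 1 0 ω = F.d ω κ := by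
  unfold ojet jet
  rw [sub_zero, aeval_X]
  unfold Pool.LA91.lp
  simp
  rfl

/-- The coefficients over the zero label. -/
theorem dv0_near (F : Fam m J) {w : ℕ} (hw : w ≤ J) {κ : Fin m} {ω ν : F.Ω} (hT : F.T ω = F.T ν)
    {ε : ℝ} (hε : 0 ≤ ε) {a : ℕ} (h0 : a = 0 → |F.x ω κ - F.x ν κ| ≤ ε)
    (h1 : |F.d ω κ - F.d ν κ| ≤ 2 ^ w * ε) :
    |(dv w (fun (_ : LnT F) (_ : Fin m) => (0 : MvPolynomial (Option (Fin m)) ℝ)) κ
        (slam F w ω)).coeff a -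
      (dv w (fun (_ : LnT F) (_ : Fin m) => (0 : MvPolynomial (Option (Fin m)) ℝ)) κ
        (slam F w ν)).coeff a| ≤ 4 * ε := by
  obtain ⟨P, hP⟩ : ∃ P : F.Ω → Polynomial ℝ, P = fun o =>
    dv w (fun (_ : LnT F) (_ : Fin m) => (0 : MvPolynomial (Option (Fin m)) ℝ)) κ (slam F w o) :=
    ⟨_, rfl⟩
  have hPe : ∀ o, dv w (fun (_ : LnT F) (_ : Fin m) => (0 : MvPolynomial (Option (Fin m)) ℝ)) κ
    (slam F w o) = P o := fun o => by rw [hP]
  have hPd : ∀ o, (P o).natDegree ≤ 1 := fun o => by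
    rw [← hPe]
    exact natDegree_dv0 w κ _
  rw [hPe, hPe, ← Polynomial.coeff_sub]
  have ht : rt F w ω = rt F w ν := by
    unfold Pool.PB.Trl.rt
    rw [hT]
  have hj : ∀ o j, (Polynomial.taylor (rt F w o) (P o)).coeff j =
      ojet F κ j 0 o / ((j.factorial : ℝ) * (2 ^ w) ^ j) := fun o j => by
    rw [← hPe]
    exact ojet_tay F hw o κ (fun (_ : LnT F) (_ : Fin m) =>
      (0 : MvPolynomial (Option (Fin m)) ℝ)) j
  have e1 : P ω - P ν = Polynomial.taylor (-rt F w ω)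
      (Polynomial.taylor (rt F w ω) (P ω - P ν)) := by
    rw [Polynomial.taylor_taylor]
    simp
  have hd : (Polynomial.taylor (rt F w ω) (P ω - P ν)).natDegree ≤ 1 := by
    rw [Polynomial.natDegree_taylor]
    exact (Polynomial.natDegree_sub_le _ _).trans (max_le (hPd _) (hPd _))
  rw [e1]
  refine (tay_coef hd (a := a) (ε := ε) (by
    have h6 := rt_mem F w ω
    rw [abs_neg, abs_le]
    constructor <;> linarith [h6.1, h6.2]) hε fun b hb => ?_).trans (le_of_eq (by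
      push_cast
      ring))
  rcases Nat.lt_or_ge 1 b with h2 | h2
  · rw [Polynomial.coeff_eq_zero_of_natDegree_lt (hd.trans_lt h2), abs_zero]
    exact hε
  · rw [map_sub, Polynomial.coeff_sub, hj ω, ht, hj ν, ← sub_div, abs_div]
    rcases Nat.eq_zero_or_pos b with hb0 | hb0
    · subst hb0
      have ha : a = 0 := by omega
      rw [ojet_zero0, ojet_zero0]
      simp only [Nat.factorial_zero, Nat.cast_one, pow_zero, mul_one, abs_one, div_one]
      exact h0 ha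
    · have hb1 : b = 1 := by omega
      subst hb1
      rw [ojet_zero1, ojet_zero1]
      simp only [Nat.factorial_one, Nat.cast_one, pow_one, one_mul]
      rw [abs_of_pos (by positivity : (0 : ℝ) < 2 ^ w), div_le_iff₀ (by positivity)]
      linarith

/-- The constant. -/
noncomputable def cZ (K : ℕ) : ℝ := (K + 1) * Real.log (2 * (8 + 1) + 1)

theorem cZ_nonneg (K : ℕ) : 0 ≤ cZ K := mul_nonneg (by positivity) (Real.log_nonneg (by norm_num))

section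

variable {F : Fam m J} {c : ℕ → Fin m} {r₀ w K a₀ l₀ : ℕ} {nc nc' : ℕ → ℕ} {p : F.Ω → ℝ}

/-- Digits of the position and of the velocity. -/
theorem near_XD {ω ν : F.Ω} {κ : Fin m} (hX : F.X a₀ ω κ = F.X a₀ ν κ)
    (hD : F.D l₀ ω κ = F.D l₀ ν κ) :
    |F.x ω κ - F.x ν κ| ≤ 1 / 2 ^ a₀ ∧ |F.d ω κ - F.d ν κ| ≤ 1 / 2 ^ l₀ := by
  have g : ∀ {a : ℕ} {x y : ℝ}, ⌊(2 : ℝ) ^ a * x⌋ = ⌊(2 : ℝ) ^ a * y⌋ → |x - y| ≤ 1 / 2 ^ a := by
    intro a x y h
    have h1 := Int.abs_sub_lt_one_of_floor_eq_floor h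
    rw [← mul_sub, abs_mul, abs_of_pos (by positivity : (0 : ℝ) < 2 ^ a)] at h1
    rw [le_div_iff₀ (by positivity)]
    linarith
  exact ⟨g hX, g hD⟩

/-- **The codes over the zero label are few bits** given the near path and the time. -/
theorem zc_of (hp : IsLaw p) (hw : w ≤ J) (hn : ∀ l < r₀, nc l ≤ a₀ + 1 ∧ nc l ≤ l₀ + w + 1 ∧
      nc' l ≤ l₀ + w + 1) {𝓦 : Type} (Z : F.Ω → 𝓦)
    (hZ : ∀ ω ν, 0 < p ω → 0 < p ν → Z ω = Z ν → F.T ω = F.T ν ∧ ∀ l < r₀,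
      F.X a₀ ω (c l) = F.X a₀ ν (c l) ∧ F.D l₀ ω (c l) = F.D l₀ ν (c l)) :
    CH p (zc F c r₀ w K nc nc') Z ≤ r₀ * (2 * cZ K) := by
  have h0 := hp.nonneg
  refine ch_vec h0 Z r₀ (zc F c r₀ w K nc nc') (c := 2 * cZ K) fun l => ?_
  have h1 := CH_subadd h0 (Pool.AVG57.cod F w (fun _ => 0) (c l) (nc l) 0 K)
    (Pool.AVG57.cod F w (fun _ => 0) (c l) (nc' l) 1 K) Z
  have hpw : ∀ {N e : ℕ}, N ≤ e + 1 → (1 : ℝ) / 2 ^ e ≤ 2 / 2 ^ N := by
    intro N e h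
    rw [div_le_div_iff₀ (by positivity) (by positivity), one_mul]
    calc (2 : ℝ) ^ N ≤ 2 ^ (e + 1) := pow_le_pow_right₀ (by norm_num) h
      _ = 2 * 2 ^ e := by ring
  have hd : ∀ {N : ℕ}, N ≤ l₀ + w + 1 → (1 : ℝ) / 2 ^ l₀ ≤ 2 ^ w * (2 / 2 ^ N) := by
    intro N h
    have := hpw (N := N) (e := l₀ + w) h
    rw [pow_add, ← one_div_div, div_div_eq_mul_div] at this
    have e1 : (1 : ℝ) / 2 ^ l₀ = 2 ^ w * (1 / (2 ^ l₀ * 2 ^ w)) := by field_simp
    have e2 : (1 : ℝ) / (2 ^ l₀ * 2 ^ w) ≤ 2 / 2 ^ N := by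
      have := hpw (N := N) (e := l₀ + w) h
      rwa [pow_add] at this
    rw [e1]
    exact mul_le_mul_of_nonneg_left e2 (by positivity)
  have h2 : CH p (Pool.AVG57.cod F w (fun _ => 0) (c l) (nc l) 0 K) Z ≤ cZ K := by
    refine Pool.AVG57.cod_few hp Z (by norm_num) fun ω ν hω hν e b _ _ => ?_
    obtain ⟨e1, e2⟩ := hZ ω ν hω hν e
    obtain ⟨e3, e4⟩ := e2 l l.2
    obtain ⟨e5, e6⟩ := near_XD e3 e4
    obtain ⟨n1, n2, n3⟩ := hn l l.2
    refine (dv0_near F hw e1 (ε := 2 / 2 ^ nc l) (by positivity) (fun _ => e5.trans (hpw n1))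
      (e6.trans (hd n2))).trans (le_of_eq ?_)
    ring
  have h3 : CH p (Pool.AVG57.cod F w (fun _ => 0) (c l) (nc' l) 1 K) Z ≤ cZ K := by
    refine Pool.AVG57.cod_few hp Z (by norm_num) fun ω ν hω hν e b hb _ => ?_
    obtain ⟨e1, e2⟩ := hZ ω ν hω hν e
    obtain ⟨e3, e4⟩ := e2 l l.2
    obtain ⟨e5, e6⟩ := near_XD e3 e4
    obtain ⟨n1, n2, n3⟩ := hn l l.2
    refine (dv0_near F hw e1 (ε := 2 / 2 ^ nc' l) (by positivity) (fun h => absurd h (by omega))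
      (e6.trans (hd n3))).trans (le_of_eq ?_)
    ring
  exact h1.trans (by linarith)

/-- **The near path is few bits** given its codes over the zero label and the time. -/
theorem of_zc (hp : IsLaw p) (hw : w ≤ J) (hK : 1 ≤ K) (hn : ∀ l < r₀, a₀ ≤ nc l + 1 ∧
      l₀ + w ≤ nc' l + 1) {𝓦 : Type} (Z : F.Ω → 𝓦)
    (hZ : ∀ ω ν, 0 < p ω → 0 < p ν → Z ω = Z ν → F.T ω = F.T ν ∧
      zc F c r₀ w K nc nc' ω = zc F c r₀ w K nc nc' ν) :
    CH p (fun ω (l : Fin r₀) => (F.X a₀ ω (c l), F.D l₀ ω (c l))) Z ≤ r₀ * (2 * cS K) := by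
  have h0 := hp.nonneg
  refine ch_vec h0 Z r₀ (fun ω (l : Fin r₀) => (F.X a₀ ω (c l), F.D l₀ ω (c l)))
    (c := 2 * cS K) fun l => ?_
  have h1 := CH_subadd h0 (fun ω => F.X a₀ ω (c l)) (fun ω => F.D l₀ ω (c l)) Z
  have hdeg : ∀ s : LnT F, (dv w (fun (_ : LnT F) (_ : Fin m) =>
      (0 : MvPolynomial (Option (Fin m)) ℝ)) (c l) s).natDegree ≤ K := fun s =>
    (natDegree_dv0 w (c l) s).trans hK
  have ht : ∀ {ω ν : F.Ω}, F.T ω = F.T ν → rt F w ω = rt F w ν := fun {ω ν} h => by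
    unfold Pool.PB.Trl.rt
    rw [h]
  obtain ⟨n1, n2⟩ := hn l l.2
  have pK : (0 : ℝ) ≤ (K + 1) * 2 ^ K := by positivity
  have h2 : CH p (fun ω => F.X a₀ ω (c l)) Z ≤ cS K := by
    refine CH_pair_int hp _ _ (by positivity) fun ω ν hω hν e => ?_
    obtain ⟨e1, e2⟩ := hZ ω ν hω hν e
    have e3 : Pool.AVG57.cod F w (fun _ => 0) (c l) (nc l) 0 K ω =
        Pool.AVG57.cod F w (fun _ => 0) (c l) (nc l) 0 K ν := (Prod.ext_iff.mp (congrFun e2 l)).1
    have g1 := ojet_near F hw hdeg (ht e1) (a := 0) (δ := 1 / 2 ^ nc l) (by positivity)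
      fun b hb hbK => Pool.AVG57.cod_near e3 hb hbK
    simp only [Nat.factorial_zero, Nat.cast_one, pow_zero, mul_one, one_mul] at g1
    rw [ojet_zero0, ojet_zero0] at g1
    refine floor_near' ?_
    have p2 : (0 : ℝ) < 2 ^ a₀ := by positivity
    rw [← mul_sub, abs_mul, abs_of_pos p2]
    have g2 : (2 : ℝ) ^ a₀ ≤ 2 ^ nc l * 2 := by
      rw [← pow_succ]
      exact pow_le_pow_right₀ (by norm_num) n1
    calc (2 : ℝ) ^ a₀ * |F.x ω (c l) - F.x ν (c l)| ≤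
          2 ^ nc l * 2 * ((K + 1) * 2 ^ K * (1 / 2 ^ nc l)) :=
          mul_le_mul g2 g1 (abs_nonneg _) (by positivity)
      _ = 2 * ((K + 1) * 2 ^ K) := by field_simp
  have h3 : CH p (fun ω => F.D l₀ ω (c l)) Z ≤ cS K := by
    refine CH_pair_int hp _ _ (by positivity) fun ω ν hω hν e => ?_
    obtain ⟨e1, e2⟩ := hZ ω ν hω hν e
    have e3 : Pool.AVG57.cod F w (fun _ => 0) (c l) (nc' l) 1 K ω =
        Pool.AVG57.cod F w (fun _ => 0) (c l) (nc' l) 1 K ν := (Prod.ext_iff.mp (congrFun e2 l)).2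
    have g1 := ojet_near F hw hdeg (ht e1) (a := 1) (δ := 1 / 2 ^ nc' l) (by positivity)
      fun b hb hbK => Pool.AVG57.cod_near e3 hb hbK
    simp only [Nat.factorial_one, Nat.cast_one, pow_one, one_mul] at g1
    rw [ojet_zero1, ojet_zero1] at g1
    refine floor_near' ?_
    have p2 : (0 : ℝ) < 2 ^ l₀ := by positivity
    rw [← mul_sub, abs_mul, abs_of_pos p2]
    have g2 : (2 : ℝ) ^ l₀ * 2 ^ w ≤ 2 ^ nc' l * 2 := by
      rw [← pow_succ, ← pow_add]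
      exact pow_le_pow_right₀ (by norm_num) n2
    calc (2 : ℝ) ^ l₀ * |F.d ω (c l) - F.d ν (c l)| ≤
          2 ^ l₀ * (2 ^ w * ((K + 1) * 2 ^ K * (1 / 2 ^ nc' l))) :=
          mul_le_mul_of_nonneg_left g1 p2.le
      _ = 2 ^ l₀ * 2 ^ w * ((K + 1) * 2 ^ K * (1 / 2 ^ nc' l)) := by ring
      _ ≤ 2 ^ nc' l * 2 * ((K + 1) * 2 ^ K * (1 / 2 ^ nc' l)) :=
          mul_le_mul_of_nonneg_right g2 (by positivity)
      _ = 2 * ((K + 1) * 2 ^ K) := by field_simp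
  exact h1.trans (by linarith)

end

end Pool.V0Y91
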