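import Pool.Agent.H57.AVG.C1s
import Pool.Agent.H91.LA.Aff

/-!
# The codes of a base place over any label, given the near path of the base

`cdC_base`: if the base places `c 0, …, c κ` are full behind the window `w` and `y` knows `p₀ J` digits
of their positions and `lam J` digits of their velocities, `p₀ ≤ lam + w`, then the codes of all
orders of the own path of `c κ` over any label of the window `w` of precision `≥ w - h₀` are few bits to
`p₀ J` digits, given a closed function and `y`.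
-/

set_option autoImplicit false

namespace Pool.V0Y91

open Finset Real MvPolynomial
open Pool.Agent.H49.Ent Pool.Agent.H32.Dense Pool.STK Pool.KA Pool.KSAT Pool.K2S Pool.PB Pool.S6C
open Pool.GEN Pool.CHT Pool.RCD Pool.LA91 Pool.AVG57
open Pool.GRD (LbP)
open Pool.UNJ (ceI)
open Pool.BFL (Pb)
open Pool.PB.Trl (rt rt_mem t_rt)

variable {m : ℕ} {γ : ∀ J : ℕ, Fam m J → Type}

/-! ### Polynomials -/

/-- The value of the iterated derivative at zero. -/
theorem der_coeff (p : Polynomial ℝ) (j : ℕ) :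
    (Polynomial.derivative^[j] p).eval 0 = j.factorial * p.coeff j := by
  rw [← Polynomial.coeff_zero_eq_eval_zero, Polynomial.coeff_iterate_derivative, Nat.zero_add,
    Nat.descFactorial_self, nsmul_eq_mul]

/-- The coefficients after an affine substitution. -/
theorem comp_coef {N : ℕ} {q : Polynomial ℝ} (hq : q.natDegree ≤ N) {ρ s ε : ℝ} (hs : |s| ≤ 1)
    (hρ : 0 ≤ ρ) (hε : 0 ≤ ε) (h : ∀ j ≤ N, |q.coeff j| * ρ ^ j ≤ ε) (a : ℕ) :
    |(q.comp (Polynomial.C ρ * (Polynomial.X - Polynomial.C s))).coeff a| ≤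
      (N + 1) * 2 ^ N * ε := by
  have e1 : q.comp (Polynomial.C ρ * (Polynomial.X - Polynomial.C s)) =
      Polynomial.taylor (-s) (q.comp (Polynomial.C ρ * Polynomial.X)) := by
    rw [Polynomial.taylor_apply, Polynomial.comp_assoc, Polynomial.mul_comp, Polynomial.C_comp,
      Polynomial.X_comp, Polynomial.C_neg, ← sub_eq_add_neg]
  rw [e1]
  refine tay_coef (q := q.comp (Polynomial.C ρ * Polynomial.X)) ?_ (by rwa [abs_neg]) hε
    fun b _ => ?_
  · refine (Polynomial.natDegree_comp_le).trans ?_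
    calc q.natDegree * (Polynomial.C ρ * Polynomial.X).natDegree ≤ N * 1 :=
          Nat.mul_le_mul hq ((Polynomial.natDegree_C_mul_le _ _).trans Polynomial.natDegree_X_le)
      _ = N := Nat.mul_one N
  · rw [Polynomial.comp_C_mul_X_coeff, abs_mul, abs_pow, abs_of_nonneg hρ]
    rcases Nat.lt_or_ge N b with hb | hb
    · rw [Polynomial.coeff_eq_zero_of_natDegree_lt (hq.trans_lt hb), abs_zero, zero_mul]
      exact hε
    · exact h b hb

/-! ### The family -/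

/-- The point of `y`. -/
noncomputable def byP (I : Finset (Fin m)) (J a l : ℕ) (x : ℕ × (Fin m → ℤ) × (Fin m → ℤ)) :
    (Option (Fin m) → ℝ) × (Option (Fin m) → ℝ) := (bx I J a x.1 x.2.1, vx I l x.2.2)

/-- **The codes from the near path**, for a family. -/
theorem cod_fam (m K : ℕ) : ∃ C : ℝ, 1 ≤ C ∧ ∀ (J : ℕ) (F : Fam m J) (A : F.Ω → Prop)
    (I : Finset (Fin m)) (k : Fin m) (w u a l P : ℕ) (V : Type) (z : PtT F → V) (z' : LnT F → V)
    (G : V → MvPolynomial (Option (Fin m)) ℝ) (Y : Type) (y : F.Ω → Y) (θ e η M s D : ℝ),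
    0 < Pe F.p A → (J : ℝ) * Real.log 2 - e ≤
      CH (Pool.Agent.H49.Ent.cond F.p A True) F.T (fun ω => (F.l ω, F.Z ω)) →
    LbP F I k K J w P A z z' G → w ≤ u → u + 1 ≤ a → u ≤ J → 0 ≤ θ → 0 ≤ e → 0 < η → η ≤ 1 →
    0 ≤ M → (insert k I).card * (((J - u : ℕ) : ℝ) * Real.log 2) - θ ≤
      CH (Pool.Agent.H49.Ent.cond F.p A True) (fun ω => ceI (insert k I) (fun _ => J) (F.x ω))
      (fun ω => (ceI (insert k I) (fun _ => u) (F.x ω), z' (slam F w ω), F.W ω)) →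
    C * (θ + e + 1) / η ≤ ((J - u : ℕ) : ℝ) * Real.log 2 → 0 < s → 0 ≤ D →
    s * (C * (Real.exp (C * (θ + e + 1) / η) * (1 / 2 ^ P)) * (2 ^ u / 2 ^ a + 1 / 2 ^ l) *
      (2 ^ u / 2 ^ w) ^ (K + 1)) ≤ D →
    (∃ φ : Y → ℕ × (Fin m → ℤ) × (Fin m → ℤ), ∀ ω, φ (y ω) = (F.T ω,
      (fun i => if i ∈ insert k I then F.X a ω i else 0),
      (fun i => if i ∈ insert k I then F.D l ω i else 0))) →
    (∀ ω, A ω → ∀ b, |s * (dv w (fun s (_ : Fin m) => G (z' s)) k (slam F w ω)).coeff b| ≤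
      (Real.exp M - 3) / 2) → 3 ≤ Real.exp M →
    CH (Pool.Agent.H49.Ent.cond F.p A True) (Pool.AVG71.cod F w 0 (K + 1) s k z' G)
      (fun ω => (z' (slam F w ω), y ω)) ≤
      ((K + 2 : ℕ) : ℝ) * (Real.log 2 + Real.log (2 * (D + 1) + 1) + η * M) := by
  classical
  obtain ⟨C₁, hC₁, hball⟩ := uni_ball m (K + 1)
  choose C₂ hC₂ hchg using fun j : ℕ => chg_fam m (K + 1) j
  obtain ⟨C₃, hC₃⟩ : ∃ C₃ : ℝ, C₃ = ∑ j ∈ range (K + 2), C₂ j := ⟨_, rfl⟩
  have hC₃j : ∀ j ≤ K + 1, C₂ j ≤ C₃ := fun j hj => by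
    rw [hC₃]
    exact Finset.single_le_sum (f := C₂) (fun i _ => zero_le_one.trans (hC₂ i))
      (Finset.mem_range.2 (by omega))
  obtain ⟨C₄, hC₄⟩ : ∃ C₄ : ℝ, C₄ = ((K + 1 : ℕ) + 1) * 2 ^ (K + 1) * C₃ := ⟨_, rfl⟩
  have hC₃1 : 1 ≤ C₃ := (hC₂ 0).trans (hC₃j 0 (by omega))
  refine ⟨max C₁ C₄, hC₁.trans (le_max_left _ _), ?_⟩
  intro J F A I k w u a l P V z z' G Y y θ e η M s D hA htm hlb hwu hua huJ hθ he hη hη1 hM hful
    hX hs hD hsm hy hcf hM3
  have hq := isLaw_cond F.isLaw hA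
  obtain ⟨Cm, hCm⟩ : ∃ Cm : ℝ, Cm = max C₁ C₄ := ⟨_, rfl⟩
  rw [← hCm] at hX hsm
  have m1 : C₁ ≤ Cm := by rw [hCm]; exact le_max_left _ _
  have m2 : C₄ ≤ Cm := by rw [hCm]; exact le_max_right _ _
  have hC₁0 : 0 ≤ C₁ := by linarith
  obtain ⟨I', hI'⟩ : ∃ I', I' = insert k I := ⟨_, rfl⟩
  rw [← hI'] at hful hy
  have hkI : k ∈ I' := by rw [hI']; exact Finset.mem_insert_self _ _
  obtain ⟨φ, hφ⟩ := hy
  have mE : C₁ * (θ + e + 1) / η ≤ Cm * (θ + e + 1) / η :=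
    div_le_div_of_nonneg_right (mul_le_mul_of_nonneg_right m1 (by linarith)) hη.le
  have huX : u + (J - u) = J := by omega
  -- the ball
  obtain ⟨H, hH⟩ : ∃ H : V → MvPolynomial (Option (Fin m)) ℝ, H = fun v => X (some k) - G v :=
    ⟨_, rfl⟩
  have hHd : ∀ v, (H v).totalDegree ≤ K + 1 := fun v => by
    rw [hH]
    refine (MvPolynomial.totalDegree_sub _ _).trans (max_le ?_ ((hlb.deg v).trans (by omega)))
    rw [MvPolynomial.totalDegree_X]
    omega
  have hHdep : ∀ v, ∀ b b' : Option (Fin m) → ℝ, b none = b' none →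
      (∀ i ∈ I', b (some i) = b' (some i)) → eval b (H v) = eval b' (H v) := by
    intro v b b' hb hb'
    rw [hH]
    simp only [map_sub, eval_X]
    rw [hb' k hkI, hlb.dep v b b' hb fun i hi => hb' i (by rw [hI']; exact mem_insert_of_mem hi)]
  have key := hball J F (Pool.Agent.H49.Ent.cond F.p A True) I' w u (J - u) V
    (fun ω => z' (slam F w ω)) H A (1 / 2 ^ P) θ e η hq htm (by omega)
    (fun ω ω' h => by rw [h]) hHd hHdep hwu hθ he hη hη1 (by positivity) (by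
      rw [huX]
      exact hful) (by
      have h1 : Pb (Pool.Agent.H49.Ent.cond F.p A True) (fun ω => ¬ A ω) = 0 := by
        unfold Pb
        refine Finset.sum_eq_zero fun ω _ => ?_
        by_cases hω : A ω
        · rw [if_neg (not_not.2 hω)]
        · rw [if_pos hω]
          by_contra hne
          exact hω (of_cond_pos (lt_of_le_of_ne (hq.nonneg ω) (Ne.symm hne)))
      rw [h1]
      positivity) (mE.trans hX) (by
      intro ω hω
      have h1 := hlb.pos ω hω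
      rw [hH]
      simp only [map_sub, eval_X]
      exact h1)
  obtain ⟨B, hB⟩ : ∃ B : ℝ, B = Real.exp (Cm * (θ + e + 1) / η) * (1 / 2 ^ P) := ⟨_, rfl⟩
  have hB0 : 0 ≤ B := by
    rw [hB]
    positivity
  rw [← hB] at hsm
  have hbb : Real.exp (C₁ * (θ + e + 1) / η) * (1 / 2 ^ P) ≤ B := by
    rw [hB]
    exact mul_le_mul_of_nonneg_right (Real.exp_le_exp.2 mE) (by positivity)
  -- the time
  have hwJ : w ≤ J := hwu.trans huJ
  obtain ⟨rT, hrT⟩ : ∃ rT : ℕ → ℝ, ∀ ω, rt F w ω = rT (F.T ω) := by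
    refine ⟨fun T => if h : ∃ ω, F.T ω = T then rt F w h.choose else 0, fun ω => ?_⟩
    have h : ∃ ω', F.T ω' = F.T ω := ⟨ω, rfl⟩
    simp only [dif_pos h]
    have h1 := h.choose_spec
    unfold Pool.PB.Trl.rt
    rw [h1]
  -- the approximating polynomials
  obtain ⟨Pt, hPt⟩ : ∃ Pt : V × Y → Polynomial ℝ, Pt = fun x =>
      (aeval (lp (bx I' J a (φ x.2).1 (φ x.2).2.1) (vx I' l (φ x.2).2.2)) (H x.1)).comp
        (Polynomial.C (1 / 2 ^ w) * (Polynomial.X - Polynomial.C (rT (φ x.2).1))) := ⟨_, rfl⟩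
  obtain ⟨R, hR⟩ : ∃ R : ℝ, R = (2 ^ u / 2 ^ a + 1 / 2 ^ l : ℝ) := ⟨_, rfl⟩
  have hR0 : 0 ≤ R := by rw [hR]; positivity
  have hur : (1 : ℝ) ≤ 2 ^ u / 2 ^ w := by
    rw [one_le_div (by positivity)]
    exact pow_le_pow_right₀ (by norm_num) hwu
  have happ : ∀ ω, A ω → (∀ b : Option (Fin m) → ℝ, (∀ o, |b o - bt F ω o| ≤ 2 / 2 ^ u) →
      |eval b (H (z' (slam F w ω)))| ≤ Real.exp (C₁ * (θ + e + 1) / η) * (1 / 2 ^ P)) → ∀ b,
      |(dv w (fun s (_ : Fin m) => G (z' s)) k (slam F w ω)).coeff b -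
        (Pt (z' (slam F w ω), y ω)).coeff b| ≤
        C₄ * B * R * (2 ^ u / 2 ^ w) ^ (K + 1) := by
    intro ω _ hgood b
    have hdc := dv_comp F hwJ (fun s => G (z' s)) k ω
    have e1 : Pt (z' (slam F w ω), y ω) =
        (aeval (lp (bx I' J a (F.T ω) (fun i => if i ∈ I' then F.X a ω i else 0))
          (vx I' l (fun i => if i ∈ I' then F.D l ω i else 0))) (H (z' (slam F w ω)))).comp
        (Polynomial.C (1 / 2 ^ w) * (Polynomial.X - Polynomial.C (rt F w ω))) := by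
      rw [hPt, hrT ω]
      simp only [hφ ω]
    have e2 : (aeval (lp (bt F ω) (bd F ω)) (X (some k) - G (z' (slam F w ω)))).comp
        (Polynomial.C (1 / 2 ^ w) * (Polynomial.X - Polynomial.C (rt F w ω))) =
        (aeval (lp (bt F ω) (bd F ω)) (H (z' (slam F w ω)))).comp
        (Polynomial.C (1 / 2 ^ w) * (Polynomial.X - Polynomial.C (rt F w ω))) := by rw [hH]
    rw [hdc, e1, e2, ← Polynomial.coeff_sub, ← Polynomial.sub_comp]
    obtain ⟨Q, hQ⟩ : ∃ Q : Polynomial ℝ, Q = aeval (lp (bt F ω) (bd F ω)) (H (z' (slam F w ω))) -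
      aeval (lp (bx I' J a (F.T ω) (fun i => if i ∈ I' then F.X a ω i else 0))
        (vx I' l (fun i => if i ∈ I' then F.D l ω i else 0))) (H (z' (slam F w ω))) := ⟨_, rfl⟩
    rw [← hQ]
    have hQd : Q.natDegree ≤ K + 1 := by
      rw [hQ]
      exact (Polynomial.natDegree_sub_le _ _).trans (max_le (natDegree_alp (hHd _) _ _)
        (natDegree_alp (hHd _) _ _))
    have h5 := comp_coef (N := K + 1) hQd (ρ := 1 / 2 ^ w) (s := rt F w ω)
      (ε := C₃ * B * R * (2 ^ u / 2 ^ w) ^ (K + 1)) (by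
        have h6 := rt_mem F w ω
        rw [abs_le]
        constructor <;> linarith [h6.1, h6.2]) (by positivity) (by positivity) (by
        intro j hj
        have h6 := hchg j J F I' (H (z' (slam F w ω))) u a l B ω (hHd _) (hHdep _) hua
          (fun b hb => (hgood b hb).trans hbb)
        have e3 : jet j (H (z' (slam F w ω))) (bt F ω) (bd F ω) -
            jet j (H (z' (slam F w ω))) (bx I' J a (F.T ω) (fun i => if i ∈ I' then F.X a ω i
              else 0)) (vx I' l (fun i => if i ∈ I' then F.D l ω i else 0)) =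
            j.factorial * Q.coeff j := by
          unfold jet
          rw [der_coeff, der_coeff, ← mul_sub, ← Polynomial.coeff_sub, ← hQ]
        rw [e3, ← hR, abs_mul, abs_of_pos (by positivity)] at h6
        have hf1 : (1 : ℝ) ≤ (j.factorial : ℝ) := by
          exact_mod_cast Nat.one_le_iff_ne_zero.2 (Nat.factorial_ne_zero j)
        have h7 : |Q.coeff j| ≤ C₂ j * B * R * (2 ^ u) ^ j := by
          refine le_trans ?_ h6
          exact le_mul_of_one_le_left (abs_nonneg _) hf1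
        have h8 := hC₂ j
        calc |Q.coeff j| * (1 / 2 ^ w) ^ j ≤ C₂ j * B * R * (2 ^ u) ^ j * (1 / 2 ^ w) ^ j :=
              mul_le_mul_of_nonneg_right h7 (by positivity)
          _ = C₂ j * B * R * (2 ^ u / 2 ^ w) ^ j := by
              rw [mul_assoc, ← mul_pow, mul_one_div]
          _ ≤ C₃ * B * R * (2 ^ u / 2 ^ w) ^ (K + 1) := by
              refine mul_le_mul ?_ (pow_le_pow_right₀ hur hj) (by positivity) (by positivity)
              refine mul_le_mul_of_nonneg_right ?_ hR0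
              exact mul_le_mul_of_nonneg_right (hC₃j j hj) hB0) b
    refine h5.trans (le_of_eq ?_)
    rw [hC₄]
    ring
  -- the count
  have hfin := ch_vec hq.nonneg (fun ω => (z' (slam F w ω), y ω)) (K + 2)
    (Pool.AVG71.cod F w 0 (K + 1) s k z' G)
    (c := Real.log 2 + Real.log (2 * (D + 1) + 1) + η * M) fun b => ?_
  · exact hfin
  · refine CH_near hq (fun ω => Pool.AVG71.cod F w 0 (K + 1) s k z' G ω b)
      (fun ω => (z' (slam F w ω), y ω)) (fun x => s * (Pt x).coeff b) _ key hM (by linarith) ?_ ?_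
    · have h0 := cnt_cond_le F.isLaw (fun ω => Pool.AVG71.cod F w 0 (K + 1) s k z' G ω b) A
      refine le_trans (by exact_mod_cast h0) ((cnt_le_of_abs (p := F.p)
        (A := A) (B := (Real.exp M - 1) / 2) (by linarith) fun ω hω => ?_).trans (by linarith))
      have h1 := hcf ω hω b
      unfold Pool.AVG71.cod
      rw [if_pos (Nat.zero_le _)]
      have h2 := Int.floor_le (s * (dv w (fun s (_ : Fin m) => G (z' s)) k
        (slam F w ω)).coeff b)
      have h3 := Int.lt_floor_add_one (s * (dv w (fun s (_ : Fin m) => G (z' s)) k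
        (slam F w ω)).coeff b)
      rw [abs_le] at h1 ⊢
      constructor <;> linarith [h1.1, h1.2]
    · intro ω hω hgood
      rw [not_not] at hgood
      have h1 := happ ω (of_cond_pos hω) hgood b
      unfold Pool.AVG71.cod
      rw [if_pos (Nat.zero_le _)]
      have h2 := Int.floor_le (s * (dv w (fun s (_ : Fin m) => G (z' s)) k
        (slam F w ω)).coeff b)
      have h3 := Int.lt_floor_add_one (s * (dv w (fun s (_ : Fin m) => G (z' s)) k
        (slam F w ω)).coeff b)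
      have h4 : |s * (dv w (fun s (_ : Fin m) => G (z' s)) k (slam F w ω)).coeff b -
          s * (Pt (z' (slam F w ω), y ω)).coeff b| ≤ D := by
        rw [← mul_sub, abs_mul, abs_of_pos hs]
        refine (mul_le_mul_of_nonneg_left h1 hs.le).trans (le_trans ?_ hsm)
        refine mul_le_mul_of_nonneg_left ?_ hs.le
        rw [← hR]
        refine mul_le_mul_of_nonneg_right ?_ (by positivity)
        refine mul_le_mul_of_nonneg_right ?_ hR0
        exact mul_le_mul_of_nonneg_right m2 hB0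
      rw [abs_le] at h4 ⊢
      constructor <;> linarith [h4.1, h4.2]

/-! ### The class -/

theorem image_succ (c : ℕ → Fin m) (κ : ℕ) :
    (range (κ + 1)).image c = insert (c κ) ((range κ).image c) := by
  rw [Finset.range_add_one, Finset.image_insert]

/-- **The codes of a base place over any label**, given the near path of the base. -/
theorem cdC_base {S : PCl m} {C₀ : ℝ} (htm : TmC S C₀) {c : ℕ → Fin m} {κ K : ℕ}
    {w a p₀ lam pκ h₀ N θ : ℝ} {y : ∀ (J : ℕ) (F : Fam m J), F.Ω → γ J F} (hw0 : 0 ≤ w)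
    (hwp : w < p₀) (hp0 : p₀ ≤ 1) (hpl : p₀ ≤ lam + w) (hwa : w ≤ a) (ha : a ≤ 1)
    (hful : ∀ u : ℝ, w < u → u < 1 → Ful S ((range (κ + 1)).image c) w u)
    (hy : Kn ((range (κ + 1)).image c) p₀ lam y) (hN : N ≤ p₀) (hp : w ≤ pκ + h₀) (hh0 : 0 ≤ h₀)
    (hθ : ((K : ℝ) + 2) * (h₀ * Real.log 2) < θ) (j₀ : ℕ) :
    CdC S y c κ K j₀ w a pκ N θ (Qt.fn fun _ _ _ => ()) := by
  classical
  have hl2 : 0 < Real.log 2 := Real.log_pos one_lt_two
  have hl21 : Real.log 2 ≤ 1 := by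
    have := Real.log_two_lt_d9
    linarith
  have hK0 : (0 : ℝ) ≤ K := Nat.cast_nonneg K
  obtain ⟨σ, hσ⟩ : ∃ σ : ℝ, σ = (θ / ((K : ℝ) + 2) - h₀ * Real.log 2) / 4 := ⟨_, rfl⟩
  have hσ0 : 0 < σ := by
    rw [hσ]
    have : h₀ * Real.log 2 < θ / ((K : ℝ) + 2) := by
      rw [lt_div_iff₀ (by linarith)]
      linarith
    linarith
  have hσ4 : ((K : ℝ) + 2) * (h₀ * Real.log 2 + 4 * σ) = θ := by
    rw [hσ]
    field_simp
    ring
  obtain ⟨δ, hδ⟩ : ∃ δ : ℝ, δ = min (σ / (4 * ((K : ℝ) + 2))) ((p₀ - w) / 2) := ⟨_, rfl⟩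
  have hδ0 : 0 < δ := by
    rw [hδ]
    exact lt_min (by positivity) (by linarith)
  have hδ1 : ((K : ℝ) + 2) * δ ≤ σ / 4 := by
    have e1 : δ ≤ σ / (4 * ((K : ℝ) + 2)) := by rw [hδ]; exact min_le_left _ _
    have e2 : ((K : ℝ) + 2) * (σ / (4 * ((K : ℝ) + 2))) = σ / 4 := by field_simp
    rw [← e2]
    exact mul_le_mul_of_nonneg_left e1 (by linarith)
  have hδ2 : δ ≤ (p₀ - w) / 2 := by rw [hδ]; exact min_le_right _ _
  refine ⟨σ / 4, by linarith, fun K₀ E => ?_⟩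
  obtain ⟨C, hC, hfam⟩ := cod_fam m K
  have hC0 : 0 < C := by linarith
  obtain ⟨M₁, hM₁⟩ : ∃ M₁ : ℝ, M₁ = (|N| + |E|) * Real.log 2 + 1 := ⟨_, rfl⟩
  have hNE0 : 0 ≤ |N| + |E| := by positivity
  have hM₁0 : 1 ≤ M₁ := by
    rw [hM₁]
    have := mul_nonneg hNE0 hl2.le
    linarith
  obtain ⟨η, hη⟩ : ∃ η : ℝ, η = min 1 (σ / M₁) := ⟨_, rfl⟩
  have hη0 : 0 < η := by
    rw [hη]
    exact lt_min one_pos (by positivity)
  have hη1 : η ≤ 1 := by rw [hη]; exact min_le_left _ _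
  have hηM : η * M₁ ≤ σ := by
    have e1 : η ≤ σ / M₁ := by rw [hη]; exact min_le_right _ _
    rwa [le_div_iff₀ (by linarith)] at e1
  obtain ⟨ψ, hψ⟩ : ∃ ψ : ℝ, ψ = η * min (σ / 4) ((p₀ - w) / 2) * Real.log 2 / (3 * C) := ⟨_, rfl⟩
  have hmn0 : 0 < min (σ / 4) ((p₀ - w) / 2) := lt_min (by linarith) (by linarith)
  have hψ0 : 0 < ψ := by
    rw [hψ]
    positivity
  have hψ1 : C * (3 * ψ) / η = min (σ / 4) ((p₀ - w) / 2) * Real.log 2 := by
    rw [hψ]
    field_simp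
  -- the limits
  obtain ⟨J₃, hJ₃⟩ := exists_nat_ge (Real.log (C * 2 ^ (K + 4)) / (σ / 4 * Real.log 2) + 1 / ψ +
    1 / ((p₀ - w) / 2) + (Real.log 2 + Real.log 5) / σ + Real.log 5)
  refine Bas.mono J₃ ((hful (w + δ) (by linarith) (by linarith) ψ hψ0).and
    (Pool.GRW.tmc_bas htm hψ0)) ?_
  rintro J hJ F A ⟨hF, hA, hT⟩ u₀ - V z z' G hlb hcf
  have hJ3 : (J₃ : ℝ) ≤ J := by exact_mod_cast hJ
  have hJ0 : (0 : ℝ) ≤ J := Nat.cast_nonneg J
  have hCK : 1 ≤ C * 2 ^ (K + 4) := by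
    have : (1 : ℝ) ≤ 2 ^ (K + 4) := one_le_pow₀ (by norm_num)
    nlinarith
  have hl5 : 0 < Real.log 5 := Real.log_pos (by norm_num)
  have t1 : 0 ≤ Real.log (C * 2 ^ (K + 4)) / (σ / 4 * Real.log 2) :=
    div_nonneg (Real.log_nonneg hCK) (by positivity)
  have t2 : 0 < 1 / ψ := by positivity
  have t3 : 0 < 1 / ((p₀ - w) / 2) := div_pos one_pos (by linarith)
  have t4 : 0 < (Real.log 2 + Real.log 5) / σ := by positivity
  have f1 : Real.log (C * 2 ^ (K + 4)) ≤ σ / 4 * Real.log 2 * J := by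
    have : Real.log (C * 2 ^ (K + 4)) / (σ / 4 * Real.log 2) ≤ J := by linarith
    rw [div_le_iff₀ (by positivity)] at this
    linarith
  have f2 : 1 ≤ ψ * J := by
    have : 1 / ψ ≤ J := by linarith
    rw [div_le_iff₀ hψ0] at this
    linarith
  have f3 : 1 ≤ (p₀ - w) / 2 * J := by
    have : 1 / ((p₀ - w) / 2) ≤ J := by linarith
    rw [div_le_iff₀ (by linarith)] at this
    linarith
  have f4 : Real.log 2 + Real.log 5 ≤ σ * J := by
    have : (Real.log 2 + Real.log 5) / σ ≤ J := by linarith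
    rw [div_le_iff₀ hσ0] at this
    linarith
  have f5 : Real.log 5 ≤ J := by linarith
  -- the integers
  have hw1 : w ≤ 1 := by linarith
  have hwJ : ⌊w * J⌋₊ ≤ J := floor_le hw1 J
  have haJ' : ⌊a * J⌋₊ ≤ J := floor_le ha J
  have hwaJ : ⌊w * J⌋₊ ≤ ⌊a * J⌋₊ := Nat.floor_le_floor (mul_le_mul_of_nonneg_right hwa hJ0)
  have huf : ((⌊(w + δ) * J⌋₊ : ℕ) : ℝ) ≤ (w + δ) * J := Nat.floor_le (by positivity)
  have hua1 : ⌊(w + δ) * J⌋₊ + 1 ≤ ⌊p₀ * J⌋₊ := by
    refine Nat.le_floor ?_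
    push_cast
    have : (w + δ) * J ≤ (p₀ - (p₀ - w) / 2) * J :=
      mul_le_mul_of_nonneg_right (by linarith) hJ0
    linarith
  have haJ : ⌊p₀ * J⌋₊ ≤ J := floor_le hp0 J
  have huJ1 : ⌊(w + δ) * J⌋₊ ≤ J := by omega
  have hexp : C * (ψ * J + ψ * J + 1) / η ≤ min (σ / 4) ((p₀ - w) / 2) * Real.log 2 * J := by
    rw [← hψ1]
    have e1 : C * (ψ * J + ψ * J + 1) ≤ C * (3 * ψ) * J := by nlinarith
    calc C * (ψ * J + ψ * J + 1) / η ≤ C * (3 * ψ) * J / η := div_le_div_of_nonneg_right e1 hη0.le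
      _ = _ := by ring
  -- the closed function
  refine ⟨V, fun ω => z' (slam F ⌊w * J⌋₊ ω), ⟨⟨z, fun ω hω => (hlb.cls ω hω).symm⟩,
    fun s => z' (s.1, s.2.1, s.2.2 / 2 ^ (⌊a * J⌋₊ - ⌊w * J⌋₊)), fun ω _ => ?_⟩, fun s hs hsN => ?_⟩
  · show z' (slam F ⌊w * J⌋₊ ω) = z' ((slam F ⌊a * J⌋₊ ω).1, (slam F ⌊a * J⌋₊ ω).2.1,
      (slam F ⌊a * J⌋₊ ω).2.2 / 2 ^ (⌊a * J⌋₊ - ⌊w * J⌋₊))
    rw [← slam_coarse F hwaJ haJ' ω]
  have hcl := isLaw_cond F.isLaw hA
  -- the numbers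
  have p1 : (0 : ℝ) < 2 ^ (N * J) := Real.rpow_pos_of_pos (by norm_num) _
  have q1 : (1 : ℝ) ≤ 2 ^ ((|N| + |E|) * J) := by
    rw [← exp_p2]
    exact Real.one_le_exp (by positivity)
  have hM3 : 3 + 2 * (2 : ℝ) ^ ((|N| + |E|) * J) ≤ Real.exp (M₁ * J) := by
    have e1 : Real.exp (M₁ * J) = 2 ^ ((|N| + |E|) * J) * Real.exp J := by
      rw [← exp_p2, ← Real.exp_add]
      congr 1
      rw [hM₁]
      ring
    have e2 : (5 : ℝ) ≤ Real.exp J := by
      have := Real.exp_le_exp.2 f5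
      rwa [Real.exp_log (by norm_num)] at this
    rw [e1]
    nlinarith
  have key := hfam J F A ((range κ).image c) (c κ) ⌊w * J⌋₊ ⌊(w + δ) * J⌋₊ ⌊p₀ * J⌋₊ ⌊lam * J⌋₊
    ⌊(pκ - σ / 4) * J⌋₊ V z z' G (γ J F) (y J F) (ψ * J) (ψ * J) η (M₁ * J) s
    (2 ^ ((h₀ + σ) * J)) hA (by linarith) hlb
    (Nat.floor_le_floor (mul_le_mul_of_nonneg_right (by linarith) hJ0)) hua1 huJ1 (by positivity)
    (by positivity) hη0 hη1 (by positivity) (by
      rw [← image_succ]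
      exact hF V z z' hlb.cls) (by
      refine hexp.trans ?_
      rw [Nat.cast_sub huJ1]
      calc min (σ / 4) ((p₀ - w) / 2) * Real.log 2 * J ≤ (p₀ - w) / 2 * Real.log 2 * J :=
            mul_le_mul_of_nonneg_right (mul_le_mul_of_nonneg_right (min_le_right _ _) hl2.le) hJ0
        _ = ((p₀ - w) / 2 * J) * Real.log 2 := by ring
        _ ≤ ((J : ℝ) - (⌊(w + δ) * J⌋₊ : ℕ)) * Real.log 2 := by
          refine mul_le_mul_of_nonneg_right ?_ hl2.le
          have h1 : (w + δ) * J ≤ (p₀ - (p₀ - w) / 2) * J :=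
            mul_le_mul_of_nonneg_right (by linarith) hJ0
          have h2 : p₀ * J ≤ 1 * J := mul_le_mul_of_nonneg_right hp0 hJ0
          linarith) hs (Real.rpow_pos_of_pos (by norm_num) _).le ?_ (by
      rw [← image_succ]
      exact hy J F) (fun ω hω b => ?_) (by linarith)
  · -- the conclusion
    have h1 : CH (Pool.Agent.H49.Ent.cond F.p A True) (Pool.AVG71.cod F ⌊w * J⌋₊ j₀ (K + 1) s
        (c κ) z' G) (fun ω => (u₀ ω, (z' (slam F ⌊w * J⌋₊ ω), y J F ω))) ≤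
        CH (Pool.Agent.H49.Ent.cond F.p A True) (Pool.AVG71.cod F ⌊w * J⌋₊ 0 (K + 1) s (c κ) z' G)
          (fun ω => (z' (slam F ⌊w * J⌋₊ ω), y J F ω)) := by
      refine (CH_mono_left hcl.nonneg fun ω ω' _ _ hh => ?_).trans
        (CH_mono_cond hcl.nonneg fun ω ω' _ _ hh => (Prod.ext_iff.mp hh).2)
      have h2 := (Prod.ext_iff.mp hh).1
      funext b
      have h3 : Pool.AVG71.cod F ⌊w * J⌋₊ 0 (K + 1) s (c κ) z' G ω b =
          Pool.AVG71.cod F ⌊w * J⌋₊ 0 (K + 1) s (c κ) z' G ω' b := congrFun h2 b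
      unfold Pool.AVG71.cod at h3 ⊢
      rw [if_pos (Nat.zero_le _), if_pos (Nat.zero_le _)] at h3
      by_cases hb : j₀ ≤ (b : ℕ)
      · rw [if_pos hb, if_pos hb]
        exact h3
      · rw [if_neg hb, if_neg hb]
    refine (h1.trans key).trans ?_
    have h4 : Real.log (2 * ((2 : ℝ) ^ ((h₀ + σ) * J) + 1) + 1) ≤
        Real.log 5 + (h₀ * Real.log 2 + σ) * J := by
      have e1 : (1 : ℝ) ≤ 2 ^ ((h₀ + σ) * J) := by
        rw [← exp_p2]
        exact Real.one_le_exp (by positivity)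
      have e2 : 2 * ((2 : ℝ) ^ ((h₀ + σ) * J) + 1) + 1 ≤ 5 * 2 ^ ((h₀ + σ) * J) := by linarith
      refine (Real.log_le_log (by positivity) e2).trans ?_
      rw [Real.log_mul (by norm_num) (by positivity), ← exp_p2, Real.log_exp]
      have e3 : (h₀ + σ) * J * Real.log 2 = (h₀ * Real.log 2) * J + σ * J * Real.log 2 := by ring
      have e4 : σ * J * Real.log 2 ≤ σ * J * 1 :=
        mul_le_mul_of_nonneg_left hl21 (by positivity)
      rw [e3]
      nlinarith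
    have h5 : η * (M₁ * J) ≤ σ * J := by
      calc η * (M₁ * J) = η * M₁ * J := by ring
        _ ≤ σ * J := mul_le_mul_of_nonneg_right hηM hJ0
    have h6 : Real.log 2 + Real.log (2 * ((2 : ℝ) ^ ((h₀ + σ) * J) + 1) + 1) + η * (M₁ * J) ≤
        (h₀ * Real.log 2 + 4 * σ) * J := by
      have e1 : (h₀ * Real.log 2 + 4 * σ) * J = (h₀ * Real.log 2 + σ) * J + 3 * (σ * J) := by ring
      have : 0 ≤ σ * J := by positivity
      rw [e1]
      linarith
    calc ((K + 2 : ℕ) : ℝ) * (Real.log 2 + Real.log (2 * ((2 : ℝ) ^ ((h₀ + σ) * J) + 1) + 1) +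
          η * (M₁ * J)) ≤ ((K + 2 : ℕ) : ℝ) * ((h₀ * Real.log 2 + 4 * σ) * J) :=
          mul_le_mul_of_nonneg_left h6 (Nat.cast_nonneg _)
      _ = ((K : ℝ) + 2) * (h₀ * Real.log 2 + 4 * σ) * J := by
          push_cast
          ring
      _ = θ * J := by rw [hσ4]
  · -- the exponents
    have a2 : Real.exp (C * (ψ * J + ψ * J + 1) / η) ≤ 2 ^ (σ / 4 * J) := by
      rw [← exp_p2]
      refine Real.exp_le_exp.2 (hexp.trans ?_)
      have : min (σ / 4) ((p₀ - w) / 2) * Real.log 2 * J ≤ σ / 4 * Real.log 2 * J :=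
        mul_le_mul_of_nonneg_right (mul_le_mul_of_nonneg_right (min_le_left _ _) hl2.le) hJ0
      linarith
    have a3 := ip2_le ((pκ - σ / 4) * J)
    have a5 : (2 : ℝ) ^ ⌊(w + δ) * J⌋₊ ≤ 2 ^ ((w + δ) * J) := p2_le (by positivity)
    have a6 : (2 : ℝ) ^ ⌊(w + δ) * J⌋₊ / 2 ^ ⌊p₀ * J⌋₊ ≤ 2 * 2 ^ ((w + δ - p₀) * J) := by
      rw [div_eq_mul_one_div]
      have e1 := ip2_le (p₀ * J)
      have e2 : (0 : ℝ) < 2 ^ ((w + δ) * J) := Real.rpow_pos_of_pos (by norm_num) _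
      calc (2 : ℝ) ^ ⌊(w + δ) * J⌋₊ * (1 / 2 ^ ⌊p₀ * J⌋₊)
          ≤ 2 ^ ((w + δ) * J) * (2 * 2 ^ (-(p₀ * J))) :=
            mul_le_mul a5 e1 (by positivity) e2.le
        _ = 2 * 2 ^ ((w + δ) * J + -(p₀ * J)) := by
            rw [Real.rpow_add (by norm_num)]
            ring
        _ = 2 * 2 ^ ((w + δ - p₀) * J) := by
            congr 2
            ring
    have a7 : 1 / (2 : ℝ) ^ ⌊lam * J⌋₊ ≤ 2 * 2 ^ ((w + δ - p₀) * J) := by
      refine (ip2_le _).trans (mul_le_mul_of_nonneg_left ?_ (by norm_num))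
      refine Real.rpow_le_rpow_of_exponent_le (by norm_num) ?_
      have : (p₀ - w - δ) * J ≤ lam * J := mul_le_mul_of_nonneg_right (by linarith) hJ0
      linarith
    have a8 : (2 : ℝ) ^ ⌊(w + δ) * J⌋₊ / 2 ^ ⌊w * J⌋₊ ≤ 2 * 2 ^ (δ * J) := by
      rw [div_eq_mul_one_div]
      have e1 := ip2_le (w * J)
      have e2 : (0 : ℝ) < 2 ^ ((w + δ) * J) := Real.rpow_pos_of_pos (by norm_num) _
      calc (2 : ℝ) ^ ⌊(w + δ) * J⌋₊ * (1 / 2 ^ ⌊w * J⌋₊)
          ≤ 2 ^ ((w + δ) * J) * (2 * 2 ^ (-(w * J))) :=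
            mul_le_mul a5 e1 (by positivity) e2.le
        _ = 2 * 2 ^ ((w + δ) * J + -(w * J)) := by
            rw [Real.rpow_add (by norm_num)]
            ring
        _ = 2 * 2 ^ (δ * J) := by
            congr 2
            ring
    have a9 : ((2 : ℝ) ^ ⌊(w + δ) * J⌋₊ / 2 ^ ⌊w * J⌋₊) ^ (K + 1) ≤
        2 ^ (K + 1) * 2 ^ (((K : ℝ) + 1) * δ * J) := by
      refine (pow_le_pow_left₀ (by positivity) a8 _).trans (le_of_eq ?_)
      rw [mul_pow, ← Real.rpow_natCast (2 ^ (δ * J)), ← Real.rpow_mul (by norm_num)]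
      congr 2
      push_cast
      ring
    have b1 : (0 : ℝ) < 2 ^ (-((pκ - σ / 4) * J)) := Real.rpow_pos_of_pos (by norm_num) _
    have b2 : (0 : ℝ) < 2 ^ ((w + δ - p₀) * J) := Real.rpow_pos_of_pos (by norm_num) _
    have b3 : (0 : ℝ) < 2 ^ (σ / 4 * J) := Real.rpow_pos_of_pos (by norm_num) _
    have b5 : (0 : ℝ) < 2 ^ (((K : ℝ) + 1) * δ * J) := Real.rpow_pos_of_pos (by norm_num) _
    have c1 : Real.exp (C * (ψ * J + ψ * J + 1) / η) * (1 / 2 ^ ⌊(pκ - σ / 4) * J⌋₊) ≤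
        2 ^ (σ / 4 * J) * (2 * 2 ^ (-((pκ - σ / 4) * J))) :=
      mul_le_mul a2 a3 (by positivity) b3.le
    have c2 : (2 : ℝ) ^ ⌊(w + δ) * J⌋₊ / 2 ^ ⌊p₀ * J⌋₊ + 1 / 2 ^ ⌊lam * J⌋₊ ≤
        4 * 2 ^ ((w + δ - p₀) * J) := by linarith
    calc s * (C * (Real.exp (C * (ψ * J + ψ * J + 1) / η) * (1 / 2 ^ ⌊(pκ - σ / 4) * J⌋₊)) *
          (2 ^ ⌊(w + δ) * J⌋₊ / 2 ^ ⌊p₀ * J⌋₊ + 1 / 2 ^ ⌊lam * J⌋₊) *
          (2 ^ ⌊(w + δ) * J⌋₊ / 2 ^ ⌊w * J⌋₊) ^ (K + 1))
        ≤ 2 ^ (N * J) * (C * (2 ^ (σ / 4 * J) * (2 * 2 ^ (-((pκ - σ / 4) * J)))) *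
          (4 * 2 ^ ((w + δ - p₀) * J)) * (2 ^ (K + 1) * 2 ^ (((K : ℝ) + 1) * δ * J))) := by
          refine mul_le_mul hsN ?_ (by positivity) p1.le
          refine mul_le_mul ?_ a9 (by positivity) (by positivity)
          refine mul_le_mul ?_ c2 (by positivity) (by positivity)
          exact mul_le_mul_of_nonneg_left c1 hC0.le
      _ = C * 2 ^ (K + 4) * (2 ^ (N * J) * 2 ^ (σ / 4 * J) * 2 ^ (-((pκ - σ / 4) * J)) *
          2 ^ ((w + δ - p₀) * J) * 2 ^ (((K : ℝ) + 1) * δ * J)) := by ring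
      _ = C * 2 ^ (K + 4) * 2 ^ (N * J + σ / 4 * J + -((pκ - σ / 4) * J) + (w + δ - p₀) * J +
          ((K : ℝ) + 1) * δ * J) := by
          rw [Real.rpow_add (by norm_num), Real.rpow_add (by norm_num),
            Real.rpow_add (by norm_num), Real.rpow_add (by norm_num)]
      _ ≤ C * 2 ^ (K + 4) * 2 ^ ((h₀ + 3 * σ / 4) * J) := by
          refine mul_le_mul_of_nonneg_left ?_ (by positivity)
          refine Real.rpow_le_rpow_of_exponent_le (by norm_num) ?_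
          have e1 : N * J + σ / 4 * J + -((pκ - σ / 4) * J) + (w + δ - p₀) * J +
              ((K : ℝ) + 1) * δ * J = (N - p₀ + (w - pκ) + σ / 2 + ((K : ℝ) + 2) * δ) * J := by
            ring
          rw [e1]
          exact mul_le_mul_of_nonneg_right (by linarith) hJ0
      _ ≤ 2 ^ (σ / 4 * J) * 2 ^ ((h₀ + 3 * σ / 4) * J) := by
          refine mul_le_mul_of_nonneg_right ?_ (Real.rpow_pos_of_pos (by norm_num) _).le
          rw [← exp_p2]
          calc C * 2 ^ (K + 4) = Real.exp (Real.log (C * 2 ^ (K + 4))) := by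
                rw [Real.exp_log (by positivity)]
            _ ≤ Real.exp (σ / 4 * J * Real.log 2) := Real.exp_le_exp.2 (by linarith)
      _ = 2 ^ ((h₀ + σ) * J) := by
          rw [← Real.rpow_add (by norm_num)]
          congr 1
          ring
  · have h1 := hcf ω hω b
    rw [abs_mul, abs_of_pos hs]
    have h2 : s * |(dv ⌊w * J⌋₊ (fun s (_ : Fin m) => G (z' s)) (c κ)
        (slam F ⌊w * J⌋₊ ω)).coeff b| ≤ 2 ^ ((|N| + |E|) * J) := by
      calc _ ≤ (2 : ℝ) ^ (N * J) * 2 ^ (E * J) := mul_le_mul hsN h1 (abs_nonneg _) p1.le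
        _ = 2 ^ (N * J + E * J) := by rw [Real.rpow_add (by norm_num)]
        _ ≤ 2 ^ ((|N| + |E|) * J) := by
          refine Real.rpow_le_rpow_of_exponent_le (by norm_num) ?_
          rw [← add_mul]
          exact mul_le_mul_of_nonneg_right (add_le_add (le_abs_self _) (le_abs_self _)) hJ0
    linarith

end Pool.V0Y91
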